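import Pool.Agent.H97.QL.AsmB

/-!
# Project UQL, module ASM: the assembly
-/

set_option autoImplicit false

namespace Pool.Agent.H97.QL

open Finset Matrix Pool.Agent.H20.QL Pool.Agent.H9.UQL

variable {X : Type}

theorem qloc_bop [MetricSpace X] {R0 C : ℝ} {μ : ℕ → ℕ} (Y : ℕ → Finset X)
    (hY : ∀ m n, m ≠ n → Disjoint (Y m) (Y n)) (A : ∀ n, Matrix (Y n) (Y n) ℝ) (hC : 0 ≤ C)
    (hG : ∀ n, Good C R0 μ n (Y n) (A n)) :
    QLoc (bop Y hY A C hC fun n => (hG n).1) := by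
  classical
  intro ε hε
  obtain ⟨m, hm⟩ := exists_nat_gt (4 / ε)
  have hm0 : (0 : ℝ) < m := lt_trans (by positivity) hm
  have hm1 : 1 ≤ m := by exact_mod_cast hm0
  have hmε : 4 * (1 / (m : ℝ)) ≤ ε := by
    rw [mul_one_div, div_le_iff₀ hm0]
    rw [div_lt_iff₀ hε] at hm
    linarith
  set U : Finset X := (Finset.range m).biUnion Y with hU
  set R1 : ℝ := ∑ x ∈ U, ∑ y ∈ U, dist x y with hR1
  have hdist : ∀ n, n < m → ∀ x ∈ Y n, ∀ y ∈ Y n, dist x y ≤ R1 := by
    intro n hn x hx y hy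
    have hxU : x ∈ U := Finset.mem_biUnion.2 ⟨n, Finset.mem_range.2 hn, hx⟩
    have hyU : y ∈ U := Finset.mem_biUnion.2 ⟨n, Finset.mem_range.2 hn, hy⟩
    calc dist x y ≤ ∑ y ∈ U, dist x y :=
          Finset.single_le_sum (f := fun y => dist x y) (fun _ _ => dist_nonneg) hyU
      _ ≤ R1 := Finset.single_le_sum (f := fun x => ∑ y ∈ U, dist x y)
          (fun _ _ => Finset.sum_nonneg fun _ _ => dist_nonneg) hxU
  refine ⟨max (max ((μ m : ℝ) * R0) R1) 1, lt_of_lt_of_le one_pos (le_max_right _ _), ?_⟩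
  intro Cs Ds hCD v w hv hw
  have h1 := inner_bop_le Y hY A C hC (fun n => (hG n).1) (κ := 1 / (m : ℝ)) (by positivity) w v
    (by
      intro n u u' hu hu'
      have hsep : ∀ x y, u x ≠ 0 → u' y ≠ 0 →
          max (max ((μ m : ℝ) * R0) R1) 1 < dist (x : X) (y : X) := by
        intro x y hx hy
        refine hCD _ ?_ _ ?_
        · by_contra hcon
          exact hx (hu x (hw _ hcon))
        · by_contra hcon
          exact hy (hu' y (hv _ hcon))
      rcases lt_or_ge n m with hnm | hnm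
      · have hzero : u ⬝ᵥ (A n *ᵥ u') = 0 := by
          by_cases hux : ∃ x, u x ≠ 0
          · obtain ⟨x, hx⟩ := hux
            have hu'0 : u' = 0 := by
              funext y
              by_contra hy
              have h2 := hsep x y hx hy
              have h3 := hdist n hnm x x.2 y y.2
              have h4 : R1 ≤ max (max ((μ m : ℝ) * R0) R1) 1 :=
                (le_max_right _ _).trans (le_max_left _ _)
              linarith
            rw [hu'0]
            simp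
          · push Not at hux
            have hu0 : u = 0 := funext hux
            rw [hu0]
            simp
        rw [hzero, abs_zero]
        positivity
      · refine (hG n).2.1 m hm1 hnm u u' fun x y hx hy => ?_
        have h2 := hsep x y hx hy
        have h4 : (μ m : ℝ) * R0 ≤ max (max ((μ m : ℝ) * R0) R1) 1 :=
          (le_max_left _ _).trans (le_max_left _ _)
        exact lt_of_le_of_lt h4 h2)
  refine h1.trans ?_
  have h5 : 0 ≤ ‖w‖ * ‖v‖ := by positivity
  calc 4 * (1 / (m : ℝ)) * ‖w‖ * ‖v‖ = 4 * (1 / (m : ℝ)) * (‖w‖ * ‖v‖) := by ring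
    _ ≤ ε * (‖w‖ * ‖v‖) := mul_le_mul_of_nonneg_right hmε h5
    _ = ε * ‖w‖ * ‖v‖ := by ring

open Classical in
/-- the vector of `ℓ²(X)` given by a real function on a finite set -/
noncomputable def emb {Y : Finset X} (u : Y → ℝ) : l2 X :=
  ∑ y : Y, (u y : ℂ) • (lp.single 2 (y : X) (1 : ℂ) : l2 X)

theorem inner_emb {Y : Finset X} (u : Y → ℝ) (g : l2 X) :
    inner ℂ (emb u) g = ∑ y : Y, (u y : ℂ) * g y := by
  classical
  unfold emb
  rw [sum_inner]
  refine Finset.sum_congr rfl fun y _ => ?_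
  rw [inner_smul_left, lp.inner_single_left]
  simp

theorem emb_apply {Y : Finset X} (u : Y → ℝ) (x : Y) : (emb u : l2 X) x = u x := by
  classical
  unfold emb
  rw [lp.coeFn_sum, Finset.sum_apply, Finset.sum_eq_single x]
  · rw [lp.coeFn_smul, Pi.smul_apply, lp.single_apply_self, smul_eq_mul, mul_one]
  · intro y _ hyx
    rw [lp.coeFn_smul, Pi.smul_apply, lp.single_apply_ne, smul_zero]
    intro h
    exact hyx (Subtype.ext h.symm)
  · intro h
    exact absurd (Finset.mem_univ x) h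

theorem norm_emb {Y : Finset X} (u : Y → ℝ) : ‖(emb u : l2 X)‖ = √(u ⬝ᵥ u) := by
  have h1 : ‖(emb u : l2 X)‖ ^ 2 = u ⬝ᵥ u := by
    rw [@norm_sq_eq_re_inner ℂ, inner_emb]
    simp only [emb_apply]
    rw [map_sum]
    simp only [dotProduct]
    refine Finset.sum_congr rfl fun x _ => ?_
    simp
  rw [← h1, Real.sqrt_sq (norm_nonneg _)]

open Classical in
theorem op_emb_apply {Y : Finset X} (T : l2 X →L[ℂ] l2 X) (v : Y → ℝ) (x : X) :
    (T (emb v)) x = ∑ y : Y, (v y : ℂ) * (T (lp.single 2 (y : X) (1 : ℂ) : l2 X)) x := by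
  unfold emb
  rw [map_sum, lp.coeFn_sum, Finset.sum_apply]
  refine Finset.sum_congr rfl fun y _ => ?_
  rw [map_smul, lp.coeFn_smul, Pi.smul_apply, smul_eq_mul]

theorem asm : Pool.Agent.H20.QL.AsmStmt := by
  classical
  intro hBlock hBlk hNorm X _ hBG hcl R hR ε hε
  by_contra hnot
  obtain ⟨R0, C, μ, Y, A, hR0, hC, hY, hG⟩ := blocks hBlock hBlk X hBG ⟨R, ε, hR, hε, hnot⟩
  set T := bop Y hY A C hC fun n => (hG n).1 with hT
  obtain ⟨R', T'', hprop, hclose⟩ := hNorm X T (hcl T (qloc_bop Y hY A hC hG)) (1 / 8) (by norm_num)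
  obtain ⟨n, hn⟩ := exists_nat_ge R'
  let B : Matrix (Y n) (Y n) ℝ := fun x y => ((T'' (lp.single 2 (y : X) (1 : ℂ) : l2 X)) x).re
  obtain ⟨u, v, huv⟩ := (hG n).2.2 B (by
    intro x y hxy
    by_contra hcon
    apply hxy
    have h1 := hprop x y (lt_of_le_of_lt hn (not_le.1 hcon))
    show ((T'' (lp.single 2 (y : X) (1 : ℂ) : l2 X)) x).re = 0
    rw [h1]
    simp)
  have h2 : (inner ℂ (emb u) ((T - T'') (emb v))).re = u ⬝ᵥ ((A n - B) *ᵥ v) := by
    rw [inner_emb, Complex.re_sum]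
    simp only [dotProduct]
    refine Finset.sum_congr rfl fun x _ => ?_
    rw [Complex.re_ofReal_mul]
    congr 1
    rw [_root_.sub_apply, lp.coeFn_sub, Pi.sub_apply, Complex.sub_re, hT, bop_apply,
      fn_of_mem hY, op_emb_apply, Complex.re_sum, Complex.re_sum]
    simp only [mulVec, dotProduct, Matrix.sub_apply, sub_mul, Finset.sum_sub_distrib]
    congr 1
    · refine Finset.sum_congr rfl fun y _ => ?_
      rw [emb_apply, ← Complex.ofReal_mul, Complex.ofReal_re]
    · refine Finset.sum_congr rfl fun y _ => ?_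
      rw [Complex.re_ofReal_mul]
      exact mul_comm _ _
  have h3 : |u ⬝ᵥ ((A n - B) *ᵥ v)| ≤ 1 / 8 * √(u ⬝ᵥ u) * √(v ⬝ᵥ v) := by
    rw [← h2]
    refine (Complex.abs_re_le_norm _).trans ((norm_inner_le_norm _ _).trans ?_)
    rw [norm_emb]
    have h4 := (T - T'').le_opNorm (emb v)
    rw [norm_emb] at h4
    have h5 : ‖(T - T'') (emb v)‖ ≤ 1 / 8 * √(v ⬝ᵥ v) :=
      h4.trans (mul_le_mul_of_nonneg_right hclose (Real.sqrt_nonneg _))
    calc √(u ⬝ᵥ u) * ‖(T - T'') (emb v)‖ ≤ √(u ⬝ᵥ u) * (1 / 8 * √(v ⬝ᵥ v)) :=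
          mul_le_mul_of_nonneg_left h5 (Real.sqrt_nonneg _)
      _ = 1 / 8 * √(u ⬝ᵥ u) * √(v ⬝ᵥ v) := by ring
  have h6 : 0 ≤ √(u ⬝ᵥ u) * √(v ⬝ᵥ v) := by positivity
  nlinarith [huv, h3, h6]

end Pool.Agent.H97.QL
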