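import Pool.Agent.H20.QL.AsmDefs

/-!
# Project UQL, module ASM, part A: the sequence of disjoint blocks
-/

set_option autoImplicit false

namespace Pool.Agent.H97.QL

open Finset Matrix Pool.Agent.H20.QL Pool.Agent.H9.UQL

/-- The properties of the operator on one block, in terms of the metric of `X`. -/
def Good {X : Type} [MetricSpace X] (C R0 : ℝ) (μ : ℕ → ℕ) (n : ℕ) (Y : Finset X)
    (A : Matrix Y Y ℝ) : Prop :=
  (∀ u v : Y → ℝ, |u ⬝ᵥ (A *ᵥ v)| ≤ C * √(u ⬝ᵥ u) * √(v ⬝ᵥ v)) ∧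
  (∀ m : ℕ, 1 ≤ m → m ≤ n → ∀ u v : Y → ℝ,
    (∀ x y, u x ≠ 0 → v y ≠ 0 → (μ m : ℝ) * R0 < dist x y) →
    |u ⬝ᵥ (A *ᵥ v)| ≤ 1 / m * √(u ⬝ᵥ u) * √(v ⬝ᵥ v)) ∧
  (∀ B : Matrix Y Y ℝ, (∀ x y, B x y ≠ 0 → dist x y ≤ n) →
    ∃ u v : Y → ℝ, 1 / 4 * √(u ⬝ᵥ u) * √(v ⬝ᵥ v) < |u ⬝ᵥ ((A - B) *ᵥ v)|)

theorem nball_dist {Y : Type} [DecidableEq Y] [MetricSpace Y] {R0 : ℝ} (nb : Y → Finset Y)
    (hnb : ∀ x y, y ∈ nb x → dist x y ≤ R0) (n : ℕ) (x y : Y) (h : y ∈ nball nb n x) :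
    dist x y ≤ n * R0 := by
  induction n generalizing y with
  | zero =>
    simp only [nball, Finset.mem_singleton] at h
    subst h
    simp
  | succ n ih =>
    simp only [nball, Finset.mem_biUnion] at h
    obtain ⟨z, hz, hy⟩ := h
    have h1 := ih z hz
    have h2 := hnb z y hy
    have h3 := dist_triangle x z y
    push_cast
    linarith

open Classical in
theorem card_filter_le {X : Type} [MetricSpace X] (Y : Finset X) (r : ℝ) (N : ℕ) (x : Y)
    (hfin : (Metric.closedBall (x : X) r).Finite) (hN : (Metric.closedBall (x : X) r).ncard ≤ N) :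
    ((univ : Finset Y).filter (fun y => dist x y ≤ r)).card ≤ N := by
  refine le_trans ?_ hN
  rw [← Finset.card_map (Function.Embedding.subtype _), ← Set.ncard_coe_finset]
  refine Set.ncard_le_ncard ?_ hfin
  intro y hy
  simp only [Finset.coe_map, Set.mem_image, Finset.mem_coe, Finset.mem_filter, Finset.mem_univ,
    true_and, Function.Embedding.subtype_apply] at hy
  obtain ⟨z, hz, rfl⟩ := hy
  rw [Metric.mem_closedBall, dist_comm]
  exact hz

theorem dot_mul {Y : Type} [Fintype Y] (T : Matrix Y Y ℝ) (u v : Y → ℝ) :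
    u ⬝ᵥ (T *ᵥ v) = ∑ z, ∑ w, u z * T z w * v w := by
  simp only [dotProduct, mulVec, Finset.mul_sum]
  refine Finset.sum_congr rfl fun z _ => Finset.sum_congr rfl fun w _ => ?_
  ring

theorem dot_self {Y : Type} [Fintype Y] (u : Y → ℝ) : u ⬝ᵥ u = ∑ z, u z ^ 2 := by
  simp only [dotProduct]
  exact Finset.sum_congr rfl fun z _ => by ring

open Classical in
/-- a block is a kernel. -/
theorem kernel_of_block {X : Type} [MetricSpace X] {R0 c : ℝ} (hR0 : 0 < R0) {Δ D : ℕ}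
    (Y : Finset X) (T : Matrix Y Y ℝ) (b : Y → ℝ)
    (hΔ : ∀ x : X, (Metric.closedBall x R0).Finite ∧ (Metric.closedBall x R0).ncard ≤ Δ)
    (hB : IsBlock R0 c (2 * R0 * D) T b) :
    Kernel (fun x : Y => univ.filter (fun y => dist x y ≤ R0)) Δ D (1 - c) T := by
  obtain ⟨h1, h2, h3, h4, h5, h6, h7⟩ := hB
  refine ⟨?_, ?_, ?_, h1, ?_, ?_, ?_, ?_⟩
  · intro x
    simp [hR0.le]
  · intro x y hxy
    simp only [Finset.mem_filter, Finset.mem_univ, true_and] at hxy ⊢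
    rwa [dist_comm]
  · intro x
    exact card_filter_le Y R0 Δ x (hΔ x).1 (hΔ x).2
  · intro x y hxy
    simp only [Finset.mem_filter, Finset.mem_univ, true_and]
    exact h2 x y hxy
  · intro u
    rw [dot_mul]
    exact (h3 u).1
  · intro u
    rw [dot_mul, dot_self]
    exact (h3 u).2
  · intro x u hu
    rw [dot_mul, dot_self]
    refine h7 u fun z w hz hw => ?_
    have hz' : dist x z ≤ D * R0 := by
      refine nball_dist (fun x : Y => univ.filter (fun y => dist x y ≤ R0)) ?_ D x z ?_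
      · intro x y hxy
        simpa using hxy
      · by_contra hcon
        exact hz (hu z hcon)
    have hw' : dist x w ≤ D * R0 := by
      refine nball_dist (fun x : Y => univ.filter (fun y => dist x y ≤ R0)) ?_ D x w ?_
      · intro x y hxy
        simpa using hxy
      · by_contra hcon
        exact hw (hu w hcon)
    have h8 := dist_triangle z x w
    rw [dist_comm z x] at h8
    linarith

open Classical in
/-- One good block away from a given finite set. -/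
theorem exists_good {X : Type} [MetricSpace X] {R0 c C : ℝ} (hR0 : 0 < R0) {Δ D n N : ℕ}
    {μ : ℕ → ℕ} (hΔ : ∀ x : X, (Metric.closedBall x R0).Finite ∧
      (Metric.closedBall x R0).ncard ≤ Δ)
    (hN : ∀ x : X, (Metric.closedBall x (n : ℝ)).Finite ∧
      (Metric.closedBall x (n : ℝ)).ncard ≤ N) (hnN : n ≤ N)
    (hD : ∀ (V : Type) [Fintype V] [DecidableEq V]
      (nb : V → Finset V) (T : Matrix V V ℝ) (φ : V → ℝ), Kernel nb Δ D (1 - c) T →
      T *ᵥ φ = φ → φ ⬝ᵥ φ = 1 → ∀ (S : V → Finset V),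
      (∀ x, (S x).card ≤ N) → (∀ x y, y ∈ S x → x ∈ S y) →
      ∃ A : Matrix V V ℝ,
        (∀ u v : V → ℝ, |u ⬝ᵥ (A *ᵥ v)| ≤ C * √(u ⬝ᵥ u) * √(v ⬝ᵥ v)) ∧
        (∀ m : ℕ, 1 ≤ m → m ≤ N → ∀ U1 U2 : Finset V, Disjoint U1 (nset nb (μ m) U2) →
          ∀ u v : V → ℝ, (∀ x, x ∉ U1 → u x = 0) → (∀ x, x ∉ U2 → v x = 0) →
          |u ⬝ᵥ (A *ᵥ v)| ≤ 1 / m * √(u ⬝ᵥ u) * √(v ⬝ᵥ v)) ∧
        (∀ B : Matrix V V ℝ, (∀ x y, B x y ≠ 0 → y ∈ S x) →
          ∃ u v : V → ℝ, 1 / 4 * √(u ⬝ᵥ u) * √(v ⬝ᵥ v) < |u ⬝ᵥ ((A - B) *ᵥ v)|))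
    (hblocks : ∀ (S : ℝ) (F : Finset X), ∃ (Y : Finset X) (T : Matrix Y Y ℝ) (b : Y → ℝ),
      Disjoint Y F ∧ IsBlock R0 c S T b) (F : Finset X) :
    ∃ (Y : Finset X) (A : Matrix Y Y ℝ), Disjoint Y F ∧ Good C R0 μ n Y A := by
  obtain ⟨Y, T, b, hdis, hB⟩ := hblocks (2 * R0 * D) F
  have hK := kernel_of_block hR0 Y T b hΔ hB
  obtain ⟨A, hA1, hA2, hA3⟩ := hD Y (fun x : Y => univ.filter (fun y => dist x y ≤ R0)) T b hK
    (by
      funext z
      exact hB.2.2.2.2.2.1 z)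
    (by rw [dot_self]; exact hB.2.2.2.2.1)
    (fun x : Y => univ.filter (fun y => dist x y ≤ (n : ℝ)))
    (fun x => card_filter_le Y n N x (hN x).1 (hN x).2)
    (by
      intro x y hxy
      simp only [Finset.mem_filter, Finset.mem_univ, true_and] at hxy ⊢
      rwa [dist_comm])
  refine ⟨Y, A, hdis, hA1, ?_, ?_⟩
  · intro m hm1 hmn u v huv
    refine hA2 m hm1 (hmn.trans hnN) (univ.filter fun x => u x ≠ 0) (univ.filter fun x => v x ≠ 0)
      ?_ u v ?_ ?_
    · rw [Finset.disjoint_left]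
      intro x hx hx2
      simp only [Finset.mem_filter, Finset.mem_univ, true_and] at hx
      simp only [nset, Finset.mem_biUnion, Finset.mem_filter, Finset.mem_univ, true_and] at hx2
      obtain ⟨y, hy, hxy⟩ := hx2
      have h1 := nball_dist (fun x : Y => univ.filter (fun y => dist x y ≤ R0))
        (by intro x y hxy; simpa using hxy) _ _ _ hxy
      have h2 := huv x y hx hy
      rw [dist_comm] at h1
      linarith
    · intro x hx
      simpa using hx
    · intro x hx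
      simpa using hx
  · intro B hB'
    refine hA3 B fun x y hxy => ?_
    simp only [Finset.mem_filter, Finset.mem_univ, true_and]
    exact hB' x y hxy

open Classical in
/-- A sequence of pairwise disjoint good blocks. -/
theorem exists_seq {X : Type} (G : ∀ (_n : ℕ) (Y : Finset X), Matrix Y Y ℝ → Prop)
    (h : ∀ (n : ℕ) (F : Finset X), ∃ (Y : Finset X) (A : Matrix Y Y ℝ), Disjoint Y F ∧ G n Y A) :
    ∃ (Y : ℕ → Finset X) (A : ∀ n, Matrix (Y n) (Y n) ℝ),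
      (∀ m n, m ≠ n → Disjoint (Y m) (Y n)) ∧ ∀ n, G n (Y n) (A n) := by
  choose Yf Af hdis hG using h
  let F : ℕ → Finset X := fun n => Nat.rec ∅ (fun n F => F ∪ Yf n F) n
  have hF : ∀ n, F (n + 1) = F n ∪ Yf n (F n) := fun n => rfl
  have hmono : Monotone F := monotone_nat_of_le_succ fun n => by
    rw [hF]
    exact Finset.subset_union_left
  have hlt : ∀ m n, m < n → Disjoint (Yf m (F m)) (Yf n (F n)) := by
    intro m n hmn
    have h1 : Yf m (F m) ⊆ F n := by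
      refine Finset.Subset.trans ?_ (hmono (Nat.succ_le_of_lt hmn))
      show _ ⊆ F (m + 1)
      rw [hF]
      exact Finset.subset_union_right
    exact ((hdis n (F n)).mono_right h1).symm
  refine ⟨fun n => Yf n (F n), fun n => Af n (F n), ?_, fun n => hG n (F n)⟩
  intro m n hmn
  rcases lt_or_gt_of_ne hmn with h | h
  · exact hlt m n h
  · exact (hlt n m h).symm

/-- If property A fails there is a sequence of good blocks. -/
theorem blocks (hBlock : BlockStmt) (hBlk : BlkStmt) (X : Type) [MetricSpace X] (hBG : BG X)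
    (h : ∃ R ε : ℝ, 0 < R ∧ 0 < ε ∧ ¬ YuA X R ε) :
    ∃ (R0 C : ℝ) (μ : ℕ → ℕ) (Y : ℕ → Finset X) (A : ∀ n, Matrix (Y n) (Y n) ℝ),
      0 < R0 ∧ 0 ≤ C ∧ (∀ m n, m ≠ n → Disjoint (Y m) (Y n)) ∧
      ∀ n, Good C R0 μ n (Y n) (A n) := by
  obtain ⟨R0, c, hR0, hc0, hc1, hblocks⟩ := hBlock X hBG h
  obtain ⟨Δ, hΔ⟩ := hBG R0
  obtain ⟨C, μ, hC, hn⟩ := hBlk Δ (1 - c) (by linarith) (by linarith)
  have hstep : ∀ (n : ℕ) (F : Finset X), ∃ (Y : Finset X) (A : Matrix Y Y ℝ),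
      Disjoint Y F ∧ Good C R0 μ n Y A := by
    intro n F
    obtain ⟨N0, hN0⟩ := hBG (n : ℝ)
    obtain ⟨D, hD⟩ := hn (max n N0)
    exact exists_good (Δ := Δ) (D := D) (N := max n N0) hR0 hΔ
      (fun x => ⟨(hN0 x).1, (hN0 x).2.trans (le_max_right _ _)⟩) (le_max_left _ _) hD hblocks F
  obtain ⟨Y, A, h1, h2⟩ := exists_seq (fun n Y A => Good C R0 μ n Y A) hstep
  exact ⟨R0, C, μ, Y, A, hR0, hC, h1, h2⟩

end Pool.Agent.H97.QL
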