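import Pool.Agent.H97.QL.AsmA

/-!
# Project UQL, module ASM, part B: the block diagonal operator
-/

set_option autoImplicit false

namespace Pool.Agent.H97.QL

open Finset Matrix Pool.Agent.H20.QL Pool.Agent.H9.UQL

section finite

variable {V : Type} [Fintype V]

theorem dot_self_nonneg (u : V → ℝ) : 0 ≤ u ⬝ᵥ u := by
  rw [dot_self]
  positivity

/-- real version of the norm bound -/
theorem real_bound (A : Matrix V V ℝ) {C : ℝ} (hC : 0 ≤ C)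
    (hA : ∀ u v : V → ℝ, |u ⬝ᵥ (A *ᵥ v)| ≤ C * √(u ⬝ᵥ u) * √(v ⬝ᵥ v)) (v : V → ℝ) :
    ∑ x, (∑ y, A x y * v y) ^ 2 ≤ C ^ 2 * ∑ y, v y ^ 2 := by
  have h1 := hA (A *ᵥ v) v
  have h0 := dot_self_nonneg (A *ᵥ v)
  rw [abs_of_nonneg h0] at h1
  have h2 : √((A *ᵥ v) ⬝ᵥ (A *ᵥ v)) ≤ C * √(v ⬝ᵥ v) := by
    rcases eq_or_lt_of_le (Real.sqrt_nonneg ((A *ᵥ v) ⬝ᵥ (A *ᵥ v))) with h3 | h3
    · rw [← h3]
      positivity
    · have h4 : (A *ᵥ v) ⬝ᵥ (A *ᵥ v) = √((A *ᵥ v) ⬝ᵥ (A *ᵥ v)) * √((A *ᵥ v) ⬝ᵥ (A *ᵥ v)) :=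
        (Real.mul_self_sqrt h0).symm
      nlinarith [h1, h4, h3]
  have h5 : (A *ᵥ v) ⬝ᵥ (A *ᵥ v) ≤ C ^ 2 * (v ⬝ᵥ v) := by
    have h6 := pow_le_pow_left₀ (Real.sqrt_nonneg _) h2 2
    rw [Real.sq_sqrt h0, mul_pow, Real.sq_sqrt (dot_self_nonneg v)] at h6
    exact h6
  rw [dot_self, dot_self] at h5
  exact h5

/-- complex version of the norm bound -/
theorem complex_bound (A : Matrix V V ℝ) {C : ℝ} (hC : 0 ≤ C)
    (hA : ∀ u v : V → ℝ, |u ⬝ᵥ (A *ᵥ v)| ≤ C * √(u ⬝ᵥ u) * √(v ⬝ᵥ v)) (v : V → ℂ) :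
    ∑ x, ‖∑ y, (A x y : ℂ) * v y‖ ^ 2 ≤ C ^ 2 * ∑ y, ‖v y‖ ^ 2 := by
  have h1 := real_bound A hC hA (fun y => (v y).re)
  have h2 := real_bound A hC hA (fun y => (v y).im)
  have h3 : ∀ z : ℂ, ‖z‖ ^ 2 = z.re ^ 2 + z.im ^ 2 := fun z => by
    rw [← Complex.normSq_eq_norm_sq, Complex.normSq_apply]
    ring
  simp only [h3, Complex.re_sum, Complex.im_sum, Complex.re_ofReal_mul, Complex.im_ofReal_mul,
    Finset.sum_add_distrib, mul_add]
  linarith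

/-- passage from real to complex bilinear bounds, with supports -/
theorem complex_form (A : Matrix V V ℝ) {κ : ℝ} (hκ : 0 ≤ κ) (w v : V → ℂ)
    (hA : ∀ u u' : V → ℝ, (∀ x, w x = 0 → u x = 0) → (∀ x, v x = 0 → u' x = 0) →
      |u ⬝ᵥ (A *ᵥ u')| ≤ κ * √(u ⬝ᵥ u) * √(u' ⬝ᵥ u')) :
    ‖∑ x, (∑ y, (A x y : ℂ) * v y) * (starRingEnd ℂ) (w x)‖ ≤
      4 * κ * √(∑ x, ‖w x‖ ^ 2) * √(∑ x, ‖v x‖ ^ 2) := by
  set wr : V → ℝ := fun x => (w x).re with hwr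
  set wi : V → ℝ := fun x => (w x).im with hwi
  set vr : V → ℝ := fun x => (v x).re with hvr
  set vi : V → ℝ := fun x => (v x).im with hvi
  have hwr0 : ∀ x, w x = 0 → wr x = 0 := fun x hx => by simp [hwr, hx]
  have hwi0 : ∀ x, w x = 0 → wi x = 0 := fun x hx => by simp [hwi, hx]
  have hvr0 : ∀ x, v x = 0 → vr x = 0 := fun x hx => by simp [hvr, hx]
  have hvi0 : ∀ x, v x = 0 → vi x = 0 := fun x hx => by simp [hvi, hx]
  have h3 : ∀ z : ℂ, ‖z‖ ^ 2 = z.re ^ 2 + z.im ^ 2 := fun z => by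
    rw [← Complex.normSq_eq_norm_sq, Complex.normSq_apply]
    ring
  have e1 : √(wr ⬝ᵥ wr) ≤ √(∑ x, ‖w x‖ ^ 2) := by
    apply Real.sqrt_le_sqrt
    rw [dot_self]
    refine Finset.sum_le_sum fun x _ => ?_
    rw [h3]
    have := sq_nonneg (w x).im
    simp only [hwr]
    linarith
  have e2 : √(wi ⬝ᵥ wi) ≤ √(∑ x, ‖w x‖ ^ 2) := by
    apply Real.sqrt_le_sqrt
    rw [dot_self]
    refine Finset.sum_le_sum fun x _ => ?_
    rw [h3]
    have := sq_nonneg (w x).re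
    simp only [hwi]
    linarith
  have e3 : √(vr ⬝ᵥ vr) ≤ √(∑ x, ‖v x‖ ^ 2) := by
    apply Real.sqrt_le_sqrt
    rw [dot_self]
    refine Finset.sum_le_sum fun x _ => ?_
    rw [h3]
    have := sq_nonneg (v x).im
    simp only [hvr]
    linarith
  have e4 : √(vi ⬝ᵥ vi) ≤ √(∑ x, ‖v x‖ ^ 2) := by
    apply Real.sqrt_le_sqrt
    rw [dot_self]
    refine Finset.sum_le_sum fun x _ => ?_
    rw [h3]
    have := sq_nonneg (v x).re
    simp only [hvi]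
    linarith
  set W := √(∑ x, ‖w x‖ ^ 2)
  set Z := √(∑ x, ‖v x‖ ^ 2)
  have hb : ∀ a b : ℝ, 0 ≤ a → a ≤ W → 0 ≤ b → b ≤ Z → κ * a * b ≤ κ * W * Z := by
    intro a b ha haW hb hbZ
    have : a * b ≤ W * Z := mul_le_mul haW hbZ hb (ha.trans haW)
    nlinarith
  have f1 := (hA wr vr hwr0 hvr0).trans (hb _ _ (Real.sqrt_nonneg _) e1 (Real.sqrt_nonneg _) e3)
  have f2 := (hA wi vi hwi0 hvi0).trans (hb _ _ (Real.sqrt_nonneg _) e2 (Real.sqrt_nonneg _) e4)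
  have f3 := (hA wr vi hwr0 hvi0).trans (hb _ _ (Real.sqrt_nonneg _) e1 (Real.sqrt_nonneg _) e4)
  have f4 := (hA wi vr hwi0 hvr0).trans (hb _ _ (Real.sqrt_nonneg _) e2 (Real.sqrt_nonneg _) e3)
  have hre : (∑ x, (∑ y, (A x y : ℂ) * v y) * (starRingEnd ℂ) (w x)).re =
      wr ⬝ᵥ (A *ᵥ vr) + wi ⬝ᵥ (A *ᵥ vi) := by
    simp only [dotProduct, mulVec, ← Finset.sum_add_distrib, Complex.re_sum]
    refine Finset.sum_congr rfl fun x _ => ?_
    simp only [Complex.mul_re, Complex.mul_im, Complex.conj_re, Complex.conj_im, Complex.re_sum,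
      Complex.im_sum, Complex.ofReal_re, Complex.ofReal_im, zero_mul, sub_zero, add_zero,
      hwr, hwi, hvr, hvi]
    ring
  have him : (∑ x, (∑ y, (A x y : ℂ) * v y) * (starRingEnd ℂ) (w x)).im =
      wr ⬝ᵥ (A *ᵥ vi) - wi ⬝ᵥ (A *ᵥ vr) := by
    simp only [dotProduct, mulVec, ← Finset.sum_sub_distrib, Complex.im_sum]
    refine Finset.sum_congr rfl fun x _ => ?_
    simp only [Complex.mul_im, Complex.mul_re, Complex.conj_re, Complex.conj_im, Complex.re_sum,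
      Complex.im_sum, Complex.ofReal_re, Complex.ofReal_im, zero_mul, sub_zero, add_zero,
      hwr, hwi, hvr, hvi]
    ring
  refine (Complex.norm_le_abs_re_add_abs_im _).trans ?_
  rw [hre, him]
  have g1 := abs_add_le (wr ⬝ᵥ (A *ᵥ vr)) (wi ⬝ᵥ (A *ᵥ vi))
  have g2 := abs_sub (wr ⬝ᵥ (A *ᵥ vi)) (wi ⬝ᵥ (A *ᵥ vr))
  linarith

end finite

section operator

variable {X : Type}

open Classical in
/-- the block diagonal operator, on functions -/
noncomputable def fn (Y : ℕ → Finset X) (A : ∀ n, Matrix (Y n) (Y n) ℝ) (v : X → ℂ) (x : X) : ℂ :=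
  if h : ∃ n, x ∈ Y n then
    ∑ y : Y (Nat.find h), (A (Nat.find h) ⟨x, Nat.find_spec h⟩ y : ℂ) * v y
  else 0

theorem fn_of_mem {Y : ℕ → Finset X} (hY : ∀ m n, m ≠ n → Disjoint (Y m) (Y n))
    (A : ∀ n, Matrix (Y n) (Y n) ℝ) (v : X → ℂ) {n : ℕ} (x : Y n) :
    fn Y A v x = ∑ y : Y n, (A n x y : ℂ) * v y := by
  classical
  have h : ∃ n, (x : X) ∈ Y n := ⟨n, x.2⟩
  have key : ∀ m (hm : (x : X) ∈ Y m), ∑ y : Y m, (A m ⟨x, hm⟩ y : ℂ) * v y =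
      ∑ y : Y n, (A n x y : ℂ) * v y := by
    intro m hm
    have hmn : m = n := by
      by_contra hne
      exact Finset.disjoint_left.1 (hY m n hne) hm x.2
    subst hmn
    rfl
  unfold fn
  rw [dif_pos h]
  exact key _ _

theorem fn_of_not_mem {Y : ℕ → Finset X} (A : ∀ n, Matrix (Y n) (Y n) ℝ) (v : X → ℂ) {x : X}
    (hx : ∀ n, x ∉ Y n) : fn Y A v x = 0 := by
  unfold fn
  rw [dif_neg]
  rintro ⟨n, hn⟩
  exact hx n hn

theorem sum_le_norm (f : l2 X) (s : Finset X) : ∑ i ∈ s, ‖f i‖ ^ 2 ≤ ‖f‖ ^ 2 := by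
  have h := lp.sum_rpow_le_norm_rpow (p := 2) (by norm_num) f s
  simpa using h

theorem sum_blocks_le {Y : ℕ → Finset X} (hY : ∀ m n, m ≠ n → Disjoint (Y m) (Y n))
    (f : l2 X) (s : Finset ℕ) : ∑ n ∈ s, ∑ y : Y n, ‖f y‖ ^ 2 ≤ ‖f‖ ^ 2 := by
  classical
  refine le_trans (le_of_eq ?_) (sum_le_norm f (s.biUnion Y))
  rw [Finset.sum_biUnion]
  · refine Finset.sum_congr rfl fun n _ => ?_
    rw [← Finset.sum_coe_sort (Y n) (fun y => ‖f y‖ ^ 2)]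
  · intro m _ n _ hmn
    exact hY m n hmn

theorem fn_sum_le {Y : ℕ → Finset X} (hY : ∀ m n, m ≠ n → Disjoint (Y m) (Y n))
    (A : ∀ n, Matrix (Y n) (Y n) ℝ) {C : ℝ} (hC : 0 ≤ C)
    (hA : ∀ n, ∀ u v : Y n → ℝ, |u ⬝ᵥ (A n *ᵥ v)| ≤ C * √(u ⬝ᵥ u) * √(v ⬝ᵥ v))
    (v : l2 X) (s : Finset X) : ∑ x ∈ s, ‖fn Y A v x‖ ^ 2 ≤ (C * ‖v‖) ^ 2 := by
  classical
  set I : Finset ℕ := s.image (fun x => if h : ∃ n, x ∈ Y n then Nat.find h else 0) with hI
  have h1 : ∑ x ∈ s, ‖fn Y A v x‖ ^ 2 ≤ ∑ x ∈ I.biUnion Y, ‖fn Y A v x‖ ^ 2 := by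
    rw [← Finset.sum_filter_add_sum_filter_not s (fun x => ∃ n, x ∈ Y n)]
    have h2 : ∑ x ∈ s.filter (fun x => ¬ ∃ n, x ∈ Y n), ‖fn Y A v x‖ ^ 2 = 0 := by
      refine Finset.sum_eq_zero fun x hx => ?_
      rw [Finset.mem_filter] at hx
      rw [fn_of_not_mem A v (fun n hn => hx.2 ⟨n, hn⟩)]
      simp
    rw [h2, add_zero]
    refine Finset.sum_le_sum_of_subset_of_nonneg ?_ fun _ _ _ => by positivity
    intro x hx
    rw [Finset.mem_filter] at hx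
    rw [Finset.mem_biUnion]
    refine ⟨Nat.find hx.2, ?_, Nat.find_spec hx.2⟩
    rw [hI, Finset.mem_image]
    exact ⟨x, hx.1, dif_pos hx.2⟩
  refine h1.trans ?_
  rw [Finset.sum_biUnion (fun m _ n _ hmn => hY m n hmn)]
  have h3 : ∀ n, ∑ x ∈ Y n, ‖fn Y A v x‖ ^ 2 ≤ C ^ 2 * ∑ y : Y n, ‖v y‖ ^ 2 := by
    intro n
    rw [← Finset.sum_coe_sort (Y n) (fun x => ‖fn Y A v x‖ ^ 2)]
    refine le_trans (le_of_eq ?_) (complex_bound (A n) hC (hA n) (fun y => v y))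
    refine Finset.sum_congr rfl fun x _ => ?_
    rw [fn_of_mem hY]
  refine (Finset.sum_le_sum fun n _ => h3 n).trans ?_
  rw [← Finset.mul_sum, mul_pow]
  exact mul_le_mul_of_nonneg_left (sum_blocks_le hY v I) (sq_nonneg C)

/-- the block diagonal operator -/
noncomputable def bop (Y : ℕ → Finset X) (hY : ∀ m n, m ≠ n → Disjoint (Y m) (Y n))
    (A : ∀ n, Matrix (Y n) (Y n) ℝ) (C : ℝ) (hC : 0 ≤ C)
    (hA : ∀ n, ∀ u v : Y n → ℝ, |u ⬝ᵥ (A n *ᵥ v)| ≤ C * √(u ⬝ᵥ u) * √(v ⬝ᵥ v)) :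
    l2 X →L[ℂ] l2 X :=
  LinearMap.mkContinuous
    { toFun := fun v => ⟨fn Y A v, memℓp_gen' (C := (C * ‖v‖) ^ 2) fun s => by
        simpa using fn_sum_le hY A hC hA v s⟩
      map_add' := by
        intro v w
        ext x
        by_cases hx : ∃ n, x ∈ Y n
        · obtain ⟨n, hn⟩ := hx
          have := fn_of_mem hY A (v + w : l2 X) (⟨x, hn⟩ : Y n)
          have h1 := fn_of_mem hY A v (⟨x, hn⟩ : Y n)
          have h2 := fn_of_mem hY A w (⟨x, hn⟩ : Y n)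
          simp only at this h1 h2
          simp only [lp.coeFn_add, Pi.add_apply]
          rw [h1, h2, ← Finset.sum_add_distrib]
          rw [lp.coeFn_add] at this
          rw [this]
          refine Finset.sum_congr rfl fun y _ => ?_
          simp only [Pi.add_apply]
          ring
        · have hx' : ∀ n, x ∉ Y n := fun n hn => hx ⟨n, hn⟩
          simp only [lp.coeFn_add, Pi.add_apply]
          rw [fn_of_not_mem A _ hx', fn_of_not_mem A _ hx', fn_of_not_mem A _ hx']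
          simp
      map_smul' := by
        intro c v
        ext x
        by_cases hx : ∃ n, x ∈ Y n
        · obtain ⟨n, hn⟩ := hx
          have := fn_of_mem hY A (c • v : l2 X) (⟨x, hn⟩ : Y n)
          have h1 := fn_of_mem hY A v (⟨x, hn⟩ : Y n)
          simp only at this h1
          simp only [lp.coeFn_smul, Pi.smul_apply, RingHom.id_apply]
          rw [h1, Finset.smul_sum]
          rw [lp.coeFn_smul] at this
          rw [this]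
          refine Finset.sum_congr rfl fun y _ => ?_
          simp only [Pi.smul_apply, smul_eq_mul]
          ring
        · have hx' : ∀ n, x ∉ Y n := fun n hn => hx ⟨n, hn⟩
          simp only [lp.coeFn_smul, Pi.smul_apply, RingHom.id_apply]
          rw [fn_of_not_mem A _ hx', fn_of_not_mem A _ hx']
          simp }
    C (by
      intro v
      refine lp.norm_le_of_forall_sum_le (by norm_num) (by positivity) fun s => ?_
      simpa using fn_sum_le hY A hC hA v s)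

theorem bop_apply (Y : ℕ → Finset X) (hY : ∀ m n, m ≠ n → Disjoint (Y m) (Y n))
    (A : ∀ n, Matrix (Y n) (Y n) ℝ) (C : ℝ) (hC : 0 ≤ C)
    (hA : ∀ n, ∀ u v : Y n → ℝ, |u ⬝ᵥ (A n *ᵥ v)| ≤ C * √(u ⬝ᵥ u) * √(v ⬝ᵥ v)) (v : l2 X)
    (x : X) : bop Y hY A C hC hA v x = fn Y A v x := rfl

theorem hasSum_blocks {Y : ℕ → Finset X} (hY : ∀ m n, m ≠ n → Disjoint (Y m) (Y n))
    {f : X → ℂ} (hf : ∀ x, (∀ n, x ∉ Y n) → f x = 0) {a : ℂ} (h : HasSum f a) :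
    HasSum (fun n => ∑ y : Y n, f y) a := by
  have hinj : Function.Injective (fun p : (Σ n, Y n) => (p.2 : X)) := by
    rintro ⟨m, y⟩ ⟨n, z⟩ hyz
    simp only at hyz
    have hmn : m = n := by
      by_contra hne
      exact Finset.disjoint_left.1 (hY m n hne) y.2 (hyz ▸ z.2)
    subst hmn
    rw [Subtype.ext hyz]
  have h1 : HasSum (f ∘ fun p : (Σ n, Y n) => (p.2 : X)) a := by
    rw [hinj.hasSum_iff]
    · exact h
    · intro x hx
      refine hf x fun n hn => hx ⟨⟨n, ⟨x, hn⟩⟩, rfl⟩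
  exact h1.sigma fun n => hasSum_fintype _

/-- bound of the inner product by block estimates -/
theorem inner_bop_le (Y : ℕ → Finset X) (hY : ∀ m n, m ≠ n → Disjoint (Y m) (Y n))
    (A : ∀ n, Matrix (Y n) (Y n) ℝ) (C : ℝ) (hC : 0 ≤ C)
    (hA : ∀ n, ∀ u v : Y n → ℝ, |u ⬝ᵥ (A n *ᵥ v)| ≤ C * √(u ⬝ᵥ u) * √(v ⬝ᵥ v)) {κ : ℝ}
    (hκ : 0 ≤ κ) (w v : l2 X)
    (h : ∀ n, ∀ u u' : Y n → ℝ, (∀ x : Y n, w x = 0 → u x = 0) →
      (∀ x : Y n, v x = 0 → u' x = 0) →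
      |u ⬝ᵥ (A n *ᵥ u')| ≤ κ * √(u ⬝ᵥ u) * √(u' ⬝ᵥ u')) :
    ‖inner ℂ w (bop Y hY A C hC hA v)‖ ≤ 4 * κ * ‖w‖ * ‖v‖ := by
  have h1 := lp.hasSum_inner (𝕜 := ℂ) w (bop Y hY A C hC hA v)
  have h2 := hasSum_blocks hY (f := fun x => inner ℂ (w x) (bop Y hY A C hC hA v x)) (by
    intro x hx
    rw [bop_apply, fn_of_not_mem A _ hx]
    simp) h1
  refine le_of_tendsto h2.norm (Filter.Eventually.of_forall fun s => ?_)
  refine (norm_sum_le _ _).trans ?_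
  have h3 : ∀ n, ‖∑ y : Y n, inner ℂ (w y) (bop Y hY A C hC hA v y)‖ ≤
      4 * κ * (√(∑ y : Y n, ‖w y‖ ^ 2) * √(∑ y : Y n, ‖v y‖ ^ 2)) := by
    intro n
    have h4 := complex_form (A n) hκ (fun y => w y) (fun y => v y) (h n)
    rw [← mul_assoc]
    refine le_trans (le_of_eq ?_) h4
    congr 1
    refine Finset.sum_congr rfl fun x _ => ?_
    rw [bop_apply, fn_of_mem hY]
    simp [RCLike.inner_apply]
  refine (Finset.sum_le_sum fun n _ => h3 n).trans ?_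
  rw [← Finset.mul_sum, mul_assoc (4 * κ)]
  refine mul_le_mul_of_nonneg_left ?_ (by positivity)
  refine (Real.sum_sqrt_mul_sqrt_le s (fun n => Finset.sum_nonneg fun _ _ => by positivity)
    (fun n => Finset.sum_nonneg fun _ _ => by positivity)).trans ?_
  refine mul_le_mul ?_ ?_ (Real.sqrt_nonneg _) (norm_nonneg _)
  · refine (Real.sqrt_le_sqrt (sum_blocks_le hY w s)).trans ?_
    rw [Real.sqrt_sq (norm_nonneg _)]
  · refine (Real.sqrt_le_sqrt (sum_blocks_le hY v s)).trans ?_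
    rw [Real.sqrt_sq (norm_nonneg _)]

end operator

end Pool.Agent.H97.QL
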